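import Pool.Agent.H688R2.JIT.Main

set_option autoImplicit false

namespace Pool.Agent.Results.MP_033923_lc.NoAlgorithm

open Pool.Agent.H688R2.JIT

/-- For every countable family of deterministic algorithms that access the penalties by
evaluation, there are four symmetric admissible penalties such that no algorithm of the family
solves the total deviation problem for these penalties with polynomially many evaluations:
for every `c` there is a demand vector on which the algorithm either makes more than
`c (n + log₂ D + 1)^c` evaluations or does not return an optimal sequence. -/
theorem result (A : ℕ → Algorithm) : ∃ F : Fin 4 → ℝ → ℝ,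
    (∀ i, Admissible (F i) ∧ ∀ x, F i (-x) = F i x) ∧
    ∀ m c : ℕ, ∃ d : Fin 4 → ℕ, (∀ i, 0 < d i) ∧ ¬ (A m).Succeeds F d c :=
  main A

end Pool.Agent.Results.MP_033923_lc.NoAlgorithm
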